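import Pool.Agent.H41.CP.GDefs

set_option autoImplicit false

/-! Subtask CPG-U: from the core lemma and the digraph lemma. -/

namespace Pool.Agent.H179.CPG

open Pool.Agent.H41.CPG Finset

theorem gu (hc : S_GCORE) (hd : S_DIG) : S_GU := by
  classical
  intro r hr H F ⟨f, hf⟩
  by_cases hb : Bad F f
  swap
  · exact ⟨f, hf, hb⟩
  obtain ⟨X, hX, hXb⟩ := hc r hr F f hb
  have hcard : Fintype.card (Fin (2 * r)) = 2 * r := Fintype.card_fin _
  -- the arcs
  let arc : Fin (2 * r) → Fin (2 * r) → Prop := fun x y => x ≠ y ∧ ∀ i, f y ≠ H i x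
  have hout : ∀ v, r - 2 ≤ (univ.filter fun u => arc v u).card := by
    intro v
    have hsub : (univ : Finset (Fin (2 * r))) ⊆
        (univ.filter fun u => arc v u) ∪ (insert v (univ.image fun i => f⁻¹ (H i v))) := by
      intro u _
      by_cases hu : arc v u
      · exact mem_union_left _ (mem_filter.2 ⟨mem_univ _, hu⟩)
      · refine mem_union_right _ ?_
        by_cases huv : v = u
        · rw [huv]; exact mem_insert_self _ _
        · have h2 : ¬ ∀ i, f u ≠ H i v := fun h => hu ⟨huv, h⟩
          push Not at h2
          obtain ⟨i, hi⟩ := h2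
          refine mem_insert_of_mem (mem_image.2 ⟨i, mem_univ _, ?_⟩)
          rw [← hi]; simp
    have h1 := card_le_card hsub
    have h2 := card_union_le (univ.filter fun u => arc v u)
      (insert v (univ.image fun i => f⁻¹ (H i v)))
    have h3 := card_insert_le v (univ.image fun i => f⁻¹ (H i v))
    have h4 : (univ.image fun i => f⁻¹ (H i v)).card ≤ r + 1 := by
      refine le_trans card_image_le ?_
      simp
    rw [card_univ, hcard] at h1
    omega
  have hin : ∀ v, r - 2 ≤ (univ.filter fun u => arc u v).card := by
    intro v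
    have hsub : (univ : Finset (Fin (2 * r))) ⊆
        (univ.filter fun u => arc u v) ∪ (insert v (univ.image fun i => (H i)⁻¹ (f v))) := by
      intro u _
      by_cases hu : arc u v
      · exact mem_union_left _ (mem_filter.2 ⟨mem_univ _, hu⟩)
      · refine mem_union_right _ ?_
        by_cases huv : u = v
        · rw [huv]; exact mem_insert_self _ _
        · have h2 : ¬ ∀ i, f v ≠ H i u := fun h => hu ⟨huv, h⟩
          push Not at h2
          obtain ⟨i, hi⟩ := h2
          refine mem_insert_of_mem (mem_image.2 ⟨i, mem_univ _, ?_⟩)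
          rw [hi]; simp
    have h1 := card_le_card hsub
    have h2 := card_union_le (univ.filter fun u => arc u v)
      (insert v (univ.image fun i => (H i)⁻¹ (f v)))
    have h3 := card_insert_le v (univ.image fun i => (H i)⁻¹ (f v))
    have h4 : (univ.image fun i => (H i)⁻¹ (f v)).card ≤ r + 1 := by
      refine le_trans card_image_le ?_
      simp
    rw [card_univ, hcard] at h1
    omega
  obtain ⟨c, hc1, x, hx, y, hy, hxy, hcx, hcy⟩ :=
    hd r hr (Fin (2 * r)) arc X hcard hX (fun v h => h.1 rfl) hout hin
  refine ⟨f * c, ?_, ?_⟩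
  · intro i v
    rw [Equiv.Perm.mul_apply]
    rcases hc1 v with h | h
    · rw [h]; exact hf i v
    · exact h.2 i
  · intro hbad
    have h1 := hXb _ hbad
    have h2 : ({x, y} : Finset (Fin (2 * r))) ⊆ X.filter fun x => (f * c) x ≠ f x := by
      intro z hz
      rw [mem_insert, mem_singleton] at hz
      rw [mem_filter, Equiv.Perm.mul_apply]
      rcases hz with rfl | rfl
      · exact ⟨hx, fun h => hcx (f.injective h)⟩
      · exact ⟨hy, fun h => hcy (f.injective h)⟩
    have h3 := card_le_card h2
    rw [card_pair hxy] at h3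
    omega

end Pool.Agent.H179.CPG
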